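import Pool.Agent.W2helper74.SOS.Stm4
import Pool.Agent.W2helper74.SOS.L
import Pool.Agent.W2helper4.SOS.K2

/-!
# MP_ce7760_an, piece P3 (`RedN`): removal of a common prime factor, `n` variables
-/

set_option linter.unusedSectionVars false

open MvPolynomial

namespace Pool.Agent.W2helper56.SOS

open Pool.Agent.W2helper74.SOS Pool.Agent.W2helper4.SOS

theorem redN : RedN := by
  classical
  intro n m r D d π hn hr hπ hE
  have hV : ∀ j, π ∣ d.p j := by
    intro j
    have hle : Submodule.span ℂ (Set.range fun q : Fin n × Fin r => X q.1 * d.e q.2) ≤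
        (Ideal.span {π}).restrictScalars ℂ := by
      refine Submodule.span_le.2 ?_
      rintro _ ⟨q, rfl⟩
      exact Ideal.mem_span_singleton.2 ((hE q.2).mul_left _)
    have hj : d.p j ∈ d.V := Submodule.subset_span ⟨j, rfl⟩
    exact Ideal.mem_span_singleton.1 (hle (V_le_span d hj))
  choose p' hp' using hV
  choose e' he' using hE
  have hpne : ∀ j, d.p j ≠ 0 := fun j => d.p_ind.ne_zero j
  have hene : ∀ i, d.e i ≠ 0 := fun i => d.e_ind.ne_zero i
  have hr0 : 0 < r := hr
  -- the degree of `π`
  obtain ⟨δ, b₀, hδ, -, hb₀⟩ := isHomogeneous_of_mul (by rw [← he' ⟨0, hr0⟩]; exact hene _)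
    (by rw [← he' ⟨0, hr0⟩]; exact d.e_hom _)
  have hδ1 : 1 ≤ δ := by
    by_contra h0
    have h0 : δ = 0 := by omega
    rw [h0] at hδ
    have h1 : π.totalDegree = 0 := Nat.le_zero.1 hδ.totalDegree_le
    rw [MvPolynomial.totalDegree_eq_zero_iff_eq_C] at h1
    apply hπ.not_unit
    rw [h1]
    refine (IsUnit.mk0 _ ?_).map C
    intro h2
    rw [h2, map_zero] at h1
    exact hπ.ne_zero h1
  have hp'h : ∀ j, ∃ b, (p' j).IsHomogeneous b ∧ δ + b = D + 1 := by
    intro j
    obtain ⟨a, b, ha, hb, hab⟩ := isHomogeneous_of_mul (by rw [← hp' j]; exact hpne j)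
      (by rw [← hp' j]; exact d.p_hom j)
    have : a = δ := ha.inj_right hδ hπ.ne_zero
    subst this
    exact ⟨b, hb, hab⟩
  have he'h : ∀ i, ∃ b, (e' i).IsHomogeneous b ∧ δ + b = D := by
    intro i
    obtain ⟨a, b, ha, hb, hab⟩ := isHomogeneous_of_mul (by rw [← he' i]; exact hene i)
      (by rw [← he' i]; exact d.e_hom i)
    have : a = δ := ha.inj_right hδ hπ.ne_zero
    subst this
    exact ⟨b, hb, hab⟩
  have hδD : δ ≤ D := by omega
  -- the two polynomial identities
  set F : (Fin n → ℂ) → (Fin n → ℂ) → ℂ := fun z w =>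
    ∑ j, eval z (p' j) * star (eval w (p' j)) -
      (∑ k, z k * star (w k)) * ∑ i, ∑ l, d.a i l * eval z (e' i) * star (eval w (e' l)) with hF
  have hF0 : ∀ z w, eval z π * star (eval w π) * F z w = 0 := by
    intro z w
    have h1 := d.main z w
    simp only [hp', he', map_mul, star_mul'] at h1
    rw [← sub_eq_zero] at h1
    rw [← h1, hF]
    simp only [mul_sub]
    congr 1
    · rw [Finset.mul_sum]
      exact Finset.sum_congr rfl fun j _ => by ring
    · rw [mul_left_comm]
      congr 1
      rw [Finset.mul_sum]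
      refine Finset.sum_congr rfl fun i _ => ?_
      rw [Finset.mul_sum]
      refine Finset.sum_congr rfl fun l _ => ?_
      ring
  have hFz : ∀ w, ∃ q : Pol n, ∀ z, eval z q = F z w := by
    intro w
    refine ⟨∑ j, C (star (eval w (p' j))) * p' j -
      (∑ k, C (star (w k)) * X k) * ∑ i, ∑ l, C (d.a i l * star (eval w (e' l))) * e' i, ?_⟩
    intro z
    simp only [hF, map_sub, map_sum, map_mul, eval_C, eval_X]
    congr 1
    · exact Finset.sum_congr rfl fun j _ => mul_comm _ _
    · congr 1
      · exact Finset.sum_congr rfl fun j _ => mul_comm _ _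
      · refine Finset.sum_congr rfl fun i _ => Finset.sum_congr rfl fun l _ => ?_
        ring
  have hFw : ∀ z, ∃ q : Pol n, ∀ w, eval w q = star (F z w) := by
    intro z
    refine ⟨∑ j, C (star (eval z (p' j))) * p' j -
      (∑ k, C (star (z k)) * X k) *
        ∑ i, ∑ l, C (star (d.a i l) * star (eval z (e' i))) * e' l, ?_⟩
    intro w
    simp only [hF, map_sub, map_sum, map_mul, eval_C, eval_X, star_sub, star_sum, star_mul',
      star_star]
  have hF1 : ∀ z w, eval w π ≠ 0 → F z w = 0 := by
    intro z w hw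
    obtain ⟨q, hq⟩ := hFz w
    have h1 : π * q = 0 := by
      refine MvPolynomial.funext fun z' => ?_
      rw [map_mul, hq, map_zero]
      have h2 := hF0 z' w
      have h3 : star (eval w π) ≠ 0 := star_ne_zero.2 hw
      have h4 : star (eval w π) * (eval z' π * F z' w) = 0 := by rw [← h2]; ring
      exact (mul_eq_zero.1 h4).resolve_left h3
    have h2 : q = 0 := (mul_eq_zero.1 h1).resolve_left hπ.ne_zero
    rw [← hq, h2, map_zero]
  have hF2 : ∀ z w, F z w = 0 := by
    intro z w
    obtain ⟨q, hq⟩ := hFw z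
    have h1 : π * q = 0 := by
      refine MvPolynomial.funext fun w' => ?_
      rw [map_mul, hq, map_zero]
      by_cases hw : eval w' π = 0
      · rw [hw, zero_mul]
      · rw [hF1 z w' hw, star_zero, mul_zero]
    have h2 : q = 0 := (mul_eq_zero.1 h1).resolve_left hπ.ne_zero
    have h3 := hq w
    rw [h2, map_zero] at h3
    exact star_eq_zero.1 h3.symm
  have hpi : LinearIndependent ℂ p' := by
    refine LinearIndependent.of_comp (LinearMap.mulLeft ℂ π) ?_
    have : (LinearMap.mulLeft ℂ π) ∘ p' = d.p := by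
      funext j
      rw [Function.comp_apply, LinearMap.mulLeft_apply, hp' j]
    rw [this]
    exact d.p_ind
  have hei : LinearIndependent ℂ e' := by
    refine LinearIndependent.of_comp (LinearMap.mulLeft ℂ π) ?_
    have : (LinearMap.mulLeft ℂ π) ∘ e' = d.e := by
      funext j
      rw [Function.comp_apply, LinearMap.mulLeft_apply, he' j]
    rw [this]
    exact d.e_ind
  have hph : ∀ j, (p' j).IsHomogeneous (D - δ + 1) := by
    intro j
    obtain ⟨b, hb, hbD⟩ := hp'h j
    have : b = D - δ + 1 := by omega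
    rw [← this]
    exact hb
  have heh : ∀ i, (e' i).IsHomogeneous (D - δ) := by
    intro i
    obtain ⟨b, hb, hbD⟩ := he'h i
    have : b = D - δ := by omega
    rw [← this]
    exact hb
  refine ⟨D - δ, by omega, ⟨p', e', d.a, hpi, hei, hph, heh, d.a_herm, d.a_unit,
    fun z w => sub_eq_zero.1 (hF2 z w)⟩, fun h => h⟩

end Pool.Agent.W2helper56.SOS
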