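import Pool.Agent.W2helper74.SOS.Stm4
import Pool.Agent.W2helper15.SOS.Bez

/-!
# MP_ce7760_an, piece P4 (`BezN`): forms without common factor on a plane
-/

set_option linter.unusedSectionVars false

open MvPolynomial

namespace Pool.Agent.W2helper56.SOS

open Pool.Agent.W2helper74.SOS Pool.Agent.W2helper15.SOS

open Polynomial in
attribute [local instance] Polynomial.algebra in
/-- if the `P j` have no common nonunit factor then the ideal generated by them contains a nonzero
constant -/
theorem exists_constN {R : Type*} [CommRing R] [IsDomain R] [UniqueFactorizationMonoid R] {ι : Type*}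
    (P : ι → R[X]) (h0 : ∃ j, P j ≠ 0)
    (h : ∀ g : R[X], (∀ j, g ∣ P j) → IsUnit g) :
    ∃ b : R, b ≠ 0 ∧ Polynomial.C b ∈ Ideal.span (Set.range P) := by
  classical
  let _ : NormalizedGCDMonoid R := Classical.choice inferInstance
  let K := FractionRing R
  have hloc : IsLocalization ((nonZeroDivisors R).map (Polynomial.C : R →+* R[X])) K[X] :=
    Polynomial.isLocalization (nonZeroDivisors R) K
  set J : Ideal R[X] := Ideal.span (Set.range P) with hJ
  have htop : Ideal.map (algebraMap R[X] K[X]) J = ⊤ := by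
    obtain ⟨g, hg⟩ : ∃ g, Ideal.map (algebraMap R[X] K[X]) J = Ideal.span {g} :=
      (IsPrincipalIdealRing.principal _).principal
    have hdiv : ∀ j, g ∣ (P j).map (algebraMap R K) := by
      intro j
      have h1 : (P j).map (algebraMap R K) ∈ Ideal.map (algebraMap R[X] K[X]) J :=
        Ideal.mem_map_of_mem (algebraMap R[X] K[X])
          (Ideal.subset_span (Set.mem_range_self j) : P j ∈ J)
      rwa [hg, Ideal.mem_span_singleton] at h1
    have hg0 : g ≠ 0 := by
      rintro rfl
      obtain ⟨j, hj⟩ := h0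
      have h2 := hdiv j
      rw [zero_dvd_iff, Polynomial.map_eq_zero_iff (IsFractionRing.injective R K)] at h2
      exact hj h2
    have hu : IsUnit g := by
      apply isUnit_or_eq_zero_of_isUnit_integerNormalization_primPart (R := R) hg0
      apply h
      intro j
      obtain ⟨b, hb, hb'⟩ := IsLocalization.integerNormalization_spec (nonZeroDivisors R) g
      set g' := IsLocalization.integerNormalization (nonZeroDivisors R) g with hg'
      apply (isPrimitive_primPart g').dvd_of_fraction_map_dvd_fraction_map (K := K)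
      have hb0 : b ≠ 0 := nonZeroDivisors.ne_zero hb
      have h3 : g'.map (algebraMap R K) ∣ (P j).map (algebraMap R K) := by
        rw [hb']
        have h4 : b • g = Polynomial.C (algebraMap R K b) * g := by
          rw [Algebra.smul_def, Polynomial.algebraMap_apply]
        rw [h4]
        have h5 : IsUnit (Polynomial.C (algebraMap R K b)) := by
          rw [Polynomial.isUnit_C, isUnit_iff_ne_zero]
          intro h6
          exact hb0 ((injective_iff_map_eq_zero (algebraMap R K)).1
            (IsFractionRing.injective _ _) _ h6)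
        exact (h5.mul_left_dvd).mpr (hdiv j)
      refine dvd_trans ?_ h3
      exact Polynomial.map_dvd _ (primPart_dvd g')
    rw [hg, Ideal.span_singleton_eq_top]
    exact hu
  by_contra hcon
  push Not at hcon
  refine (IsLocalization.map_algebraMap_ne_top_iff_disjoint
    ((nonZeroDivisors R).map (Polynomial.C : R →+* R[X])) K[X] J).mpr ?_ htop
  rw [Set.disjoint_left]
  rintro x ⟨b, hb, rfl⟩ hx
  exact hcon b (nonZeroDivisors.ne_zero hb) hx

/-- Normalised form: `p j (1, 0, ..., 0) ≠ 0` for some `j`. -/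
theorem bez_norm {m R N : ℕ} (p : Fin R → Pol (m + 1)) (hp : ∀ j, (p j).IsHomogeneous N)
    (j₀ : Fin R) (h1 : eval (Fin.cons 1 0 : Fin (m + 1) → ℂ) (p j₀) ≠ 0)
    (hunit : ∀ g : Pol (m + 1), (∀ j, g ∣ p j) → IsUnit g) :
    ∃ s₀ : Fin m → ℂ, ∀ x : Fin 2 → ℂ,
      (∀ j, eval (Fin.cons (x 0) (fun i => x 1 * s₀ i) : Fin (m + 1) → ℂ) (p j) = 0) → x = 0 := by
  have hne : p j₀ ≠ 0 := by
    intro h
    rw [h, map_zero] at h1
    exact h1 rfl
  obtain ⟨b, hb0, hb⟩ := exists_constN (fun j => finSuccEquiv ℂ m (p j))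
    ⟨j₀, fun h => hne ((map_eq_zero_iff _ (finSuccEquiv ℂ m).injective).mp h)⟩
    (by
      intro g hg
      have h1 : IsUnit ((finSuccEquiv ℂ m).symm g) := by
        apply hunit
        intro j
        have h2 := map_dvd (finSuccEquiv ℂ m).symm (hg j)
        rwa [AlgEquiv.symm_apply_apply] at h2
      have h3 := h1.map (finSuccEquiv ℂ m)
      rwa [AlgEquiv.apply_symm_apply] at h3)
  have hz : ∀ (y : ℂ) (s : Fin m → ℂ),
      (∀ j, eval (Fin.cons y s : Fin (m + 1) → ℂ) (p j) = 0) → eval s b = 0 := by
    intro y s h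
    have h1 : Ideal.span (Set.range fun j => finSuccEquiv ℂ m (p j)) ≤
        RingHom.ker ((Polynomial.evalRingHom y).comp (Polynomial.mapRingHom (eval s))) := by
      rw [Ideal.span_le]
      rintro _ ⟨j, rfl⟩
      have h2 := h j
      rw [eval_eq_eval_mv_eval'] at h2
      simpa [RingHom.mem_ker] using h2
    have h3 := h1 hb
    rw [RingHom.mem_ker] at h3
    simpa using h3
  -- a homogeneous component
  obtain ⟨d, hd⟩ : ∃ d, homogeneousComponent d b ≠ 0 := by
    by_contra hcon
    push Not at hcon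
    apply hb0
    rw [← sum_homogeneousComponent b]
    exact Finset.sum_eq_zero fun i _ => hcon i
  have hz' : ∀ (y : ℂ) (s : Fin m → ℂ),
      (∀ j, eval (Fin.cons y s : Fin (m + 1) → ℂ) (p j) = 0) →
        eval s (homogeneousComponent d b) = 0 := by
    intro y s h
    have h1 : ∀ c : ℂ, eval (fun i => c * s i) b = 0 := by
      intro c
      apply hz (c * y)
      intro j
      have h2 := hom_eval (hp j) c (Fin.cons y s : Fin (m + 1) → ℂ)
      rw [h j, mul_zero] at h2
      rw [← h2]
      congr 2
      funext i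
      refine Fin.cases ?_ (fun i => ?_) i <;> simp
    set q : Polynomial ℂ := ∑ i ∈ Finset.range (b.totalDegree + 1),
      Polynomial.C (eval s (homogeneousComponent i b)) * Polynomial.X ^ i with hq
    have hq0 : q = 0 := by
      apply Polynomial.funext
      intro c
      rw [Polynomial.eval_zero, ← h1 c]
      conv_rhs => rw [← sum_homogeneousComponent b, map_sum]
      rw [hq, Polynomial.eval_finsetSum]
      refine Finset.sum_congr rfl fun i _ => ?_
      rw [hom_eval (homogeneousComponent_isHomogeneous i b), Polynomial.eval_mul,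
        Polynomial.eval_C, Polynomial.eval_pow, Polynomial.eval_X, mul_comm]
    have h3 := congrArg (fun r => Polynomial.coeff r d) hq0
    simp only [hq, Polynomial.finsetSum_coeff, Polynomial.coeff_C_mul_X_pow,
      Polynomial.coeff_zero] at h3
    by_cases hdd : d ∈ Finset.range (b.totalDegree + 1)
    · rw [Finset.sum_ite_eq, if_pos hdd] at h3
      exact h3
    · exfalso
      apply hd
      apply homogeneousComponent_eq_zero
      rw [Finset.mem_range] at hdd
      omega
  set B := homogeneousComponent d b with hB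
  have hBh : B.IsHomogeneous d := homogeneousComponent_isHomogeneous d b
  obtain ⟨s₀, hs₀⟩ : ∃ s₀ : Fin m → ℂ, eval s₀ B ≠ 0 := by
    by_contra hcon
    push Not at hcon
    apply hd
    apply MvPolynomial.funext
    intro s
    rw [hcon s, map_zero]
  refine ⟨s₀, fun x hx => ?_⟩
  have h2 := hz' _ _ hx
  rw [hom_eval hBh] at h2
  have hx1 : x 1 = 0 := eq_zero_of_pow_eq_zero ((mul_eq_zero.1 h2).resolve_right hs₀)
  have h3 := hx j₀
  have h4 := hom_eval (hp j₀) (x 0) (Fin.cons 1 0 : Fin (m + 1) → ℂ)
  have h5 : (fun i => x 0 * (Fin.cons 1 0 : Fin (m + 1) → ℂ) i) =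
      (Fin.cons (x 0) (fun i => x 1 * s₀ i) : Fin (m + 1) → ℂ) := by
    funext i
    refine Fin.cases ?_ (fun i => ?_) i
    · simp
    · simp [hx1]
  rw [h5, h3] at h4
  have hx0 : x 0 = 0 := eq_zero_of_pow_eq_zero ((mul_eq_zero.1 h4.symm).resolve_right h1)
  funext i
  fin_cases i
  · exact hx0
  · exact hx1

theorem bezN : BezN := by
  intro n R N p hn hp h0 hprime
  obtain ⟨m, rfl⟩ : ∃ m, n = m + 1 := ⟨n - 1, by omega⟩
  have hunit : ∀ g : Pol (m + 1), (∀ j, g ∣ p j) → IsUnit g := by
    intro g hg
    by_contra hnu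
    have hg0 : g ≠ 0 := by
      rintro rfl
      obtain ⟨j, hj⟩ := h0
      exact hj (zero_dvd_iff.mp (hg j))
    obtain ⟨π, hπ, hd⟩ := WfDvdMonoid.exists_irreducible_factor hnu hg0
    obtain ⟨j, hj⟩ := hprime π hπ.prime
    exact hj (hd.trans (hg j))
  obtain ⟨j₀, hj₀⟩ := h0
  -- the direction `v`
  obtain ⟨v, hv⟩ : ∃ v : Fin (m + 1) → ℂ, eval v (X 0 * p j₀) ≠ 0 := by
    by_contra hcon
    push Not at hcon
    have h1 : X 0 * p j₀ = 0 := by
      apply MvPolynomial.funext
      intro s
      rw [hcon s, map_zero]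
    rcases mul_eq_zero.1 h1 with h2 | h2
    · exact absurd h2 (X_ne_zero 0)
    · exact hj₀ h2
  rw [map_mul, eval_X] at hv
  have hv0 : v 0 ≠ 0 := left_ne_zero_of_mul hv
  have hvp : eval v (p j₀) ≠ 0 := right_ne_zero_of_mul hv
  -- the change of variables and its inverse
  let σ : Fin (m + 1) → Pol (m + 1) :=
    Fin.cons (C (v 0) * X 0) (fun i => C (v i.succ) * X 0 + X i.succ)
  let τ : Fin (m + 1) → Pol (m + 1) :=
    Fin.cons (C (v 0)⁻¹ * X 0) (fun i => X i.succ - C (v i.succ * (v 0)⁻¹) * X 0)
  have hCv : (C (v 0) * C (v 0)⁻¹ : Pol (m + 1)) = 1 := by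
    rw [← C_mul, mul_inv_cancel₀ hv0, C_1]
  have hst : ∀ q : Pol (m + 1), aeval σ (aeval τ q) = q := by
    intro q
    have h1 : (aeval σ).comp (aeval τ) = AlgHom.id ℂ (Pol (m + 1)) := by
      apply MvPolynomial.algHom_ext
      intro i
      rw [AlgHom.comp_apply, aeval_X, AlgHom.id_apply]
      refine Fin.cases ?_ (fun i => ?_) i
      · simp only [τ, Fin.cons_zero, map_mul, aeval_X, algHom_C, σ]
        rw [← mul_assoc, MvPolynomial.algebraMap_eq, mul_comm (C _), hCv, one_mul]
      · simp only [τ, Fin.cons_succ, map_sub, map_mul, aeval_X, algHom_C, σ, Fin.cons_zero,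
          MvPolynomial.algebraMap_eq]
        have h2 : (C (v i.succ * (v 0)⁻¹) * (C (v 0) * X 0) : Pol (m + 1)) =
            C (v i.succ) * X 0 := by
          rw [← mul_assoc, ← C_mul, mul_assoc, inv_mul_cancel₀ hv0, mul_one]
        rw [C_mul] at h2
        rw [h2]
        ring
    exact DFunLike.congr_fun h1 q
  have hts : ∀ q : Pol (m + 1), aeval τ (aeval σ q) = q := by
    intro q
    have h1 : (aeval τ).comp (aeval σ) = AlgHom.id ℂ (Pol (m + 1)) := by
      apply MvPolynomial.algHom_ext
      intro i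
      rw [AlgHom.comp_apply, aeval_X, AlgHom.id_apply]
      refine Fin.cases ?_ (fun i => ?_) i
      · simp only [τ, Fin.cons_zero, map_mul, aeval_X, algHom_C, σ]
        rw [← mul_assoc, MvPolynomial.algebraMap_eq, hCv, one_mul]
      · simp only [τ, Fin.cons_succ, map_add, map_mul, aeval_X, algHom_C, σ, Fin.cons_zero,
          MvPolynomial.algebraMap_eq]
        ring
    exact DFunLike.congr_fun h1 q
  have hσh : ∀ j, (aeval σ (p j)).IsHomogeneous N := by
    intro j
    have h1 := (hp j).aeval (n := 1) σ (by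
      intro i
      refine Fin.cases ?_ (fun i => ?_) i
      · simp only [σ, Fin.cons_zero]
        exact (isHomogeneous_X ℂ 0).C_mul _
      · simp only [σ, Fin.cons_succ]
        exact ((isHomogeneous_X ℂ 0).C_mul _).add (isHomogeneous_X ℂ _))
    rwa [one_mul] at h1
  have hσe : ∀ (y : ℂ) (s : Fin m → ℂ) (q : Pol (m + 1)),
      eval (Fin.cons y s : Fin (m + 1) → ℂ) (aeval σ q) =
        eval (fun i => y * v i + (Fin.cons 0 s : Fin (m + 1) → ℂ) i) q := by
    intro y s q
    rw [eval_aeval']
    congr 2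
    funext i
    refine Fin.cases ?_ (fun i => ?_) i
    · simp [σ, mul_comm]
    · simp [σ, mul_comm]
  obtain ⟨s₀, hs₀⟩ := bez_norm (fun j => aeval σ (p j)) hσh j₀ (by
      rw [hσe]
      have h1 : (fun i => 1 * v i + (Fin.cons 0 0 : Fin (m + 1) → ℂ) i) = v := by
        funext i
        refine Fin.cases ?_ (fun i => ?_) i <;> simp
      rw [h1]
      exact hvp)
    (by
      intro g hg
      have h1 : IsUnit (aeval τ g) := by
        apply hunit
        intro j
        have h2 := map_dvd (aeval τ : Pol (m + 1) →ₐ[ℂ] Pol (m + 1)) (hg j)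
        rwa [hts] at h2
      have h3 := h1.map (aeval σ : Pol (m + 1) →ₐ[ℂ] Pol (m + 1))
      rwa [hst] at h3)
  refine ⟨fun i => ![v i, (Fin.cons 0 s₀ : Fin (m + 1) → ℂ) i], fun x hx => ?_⟩
  by_contra hcon
  push Not at hcon
  apply hx
  apply hs₀
  intro j
  refine (hσe _ _ _).trans ((congrArg (fun u => eval u (p j)) ?_).trans (hcon j))
  funext i
  simp only [Matrix.mulVec, dotProduct, Fin.sum_univ_two]
  show x 0 * v i + _ = v i * x 0 + (Fin.cons 0 s₀ : Fin (m + 1) → ℂ) i * x 1
  rw [mul_comm (v i)]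
  congr 1
  refine Fin.cases ?_ (fun i => ?_) i
  · simp
  · simp [mul_comm]

end Pool.Agent.W2helper56.SOS
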